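import Pool.Agent.Lib.MP_f31b39_co.AS.Main

/-!
# Tight `t`-independent sets: almost all sizes
-/

namespace Pool.Agent.Results.MP_f31b39_co.AlmostAllSizes

open TightIndep Filter

/-- For every `T`, the set of the numbers `m` for which some finite abelian group contains a tight
`t`-independent set of size `m` for some `t` with `4 ≤ t ≤ T` has natural density `0`. -/
theorem result (T : ℕ) :
    Tendsto (fun X : ℕ => (({m : ℕ | m < X ∧ ∃ t, 4 ≤ t ∧ t ≤ T ∧
      ∃ (G : Type) (_ : AddCommGroup G) (_ : Fintype G) (A : Finset G),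
        A.card = m ∧ Tight t A}.ncard : ℕ) : ℝ) / X) atTop (nhds 0) := by
  classical
  have h1 : Tendsto (fun X : ℕ => ∑ t ∈ Finset.Icc 4 T,
      (((Finset.range X).filter fun m => HasTight t m).card : ℝ) / X) atTop (nhds 0) := by
    rw [← Finset.sum_const_zero (s := Finset.Icc 4 T) (ι := ℕ)]
    exact tendsto_finsetSum _ fun t ht => density t (Finset.mem_Icc.1 ht).1
  refine squeeze_zero (fun X => by positivity) (fun X => ?_) h1
  rw [← Finset.sum_div]
  refine div_le_div_of_nonneg_right ?_ (Nat.cast_nonneg X)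
  have h2 : {m : ℕ | m < X ∧ ∃ t, 4 ≤ t ∧ t ≤ T ∧
      ∃ (G : Type) (_ : AddCommGroup G) (_ : Fintype G) (A : Finset G),
        A.card = m ∧ Tight t A} ⊆
      ((Finset.Icc 4 T).biUnion fun t => (Finset.range X).filter fun m => HasTight t m :
        Finset ℕ) := by
    rintro m ⟨hm, t, ht, hT, h⟩
    rw [Finset.mem_coe, Finset.mem_biUnion]
    exact ⟨t, Finset.mem_Icc.2 ⟨ht, hT⟩, Finset.mem_filter.2 ⟨Finset.mem_range.2 hm, h⟩⟩
  have h3 := Set.ncard_le_ncard h2 (Finset.finite_toSet _)
  rw [Set.ncard_coe_finset] at h3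
  exact_mod_cast h3.trans Finset.card_biUnion_le

end Pool.Agent.Results.MP_f31b39_co.AlmostAllSizes
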