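import Pool.Agent.Lib.MP_f31b39_co.FM.Fin
import Pool.Agent.Lib.MP_f31b39_co.FM.S6
import Pool.Agent.Lib.MP_f31b39_co.FM.Cy

/-!
# Tight `t`-independent sets: all `t`, the size at most one hundred, and `t` large
-/

namespace Pool.Agent.Results.MP_f31b39_co.LargeIndependence

open TightIndep

/-- Let `A` be a tight `t`-independent set of size `m` in a finite abelian group (for instance in a
cyclic group), `t ≥ 4`, `m ≥ 3`. Then `m = 3`, `t = 5` and the order of the group is `38`, or
`m ≥ 7` and `t ≤ 7` (and not `m = 11`, `t = 5` if the group is cyclic), or `m > 100` and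
`(t + 1) ^ 2 < 16 m`. -/
theorem result (G : Type) [AddCommGroup G] [Fintype G] (t : ℕ) (A : Finset G)
    (hA : Tight t A) (ht : 4 ≤ t) (hm : 3 ≤ A.card) :
    (A.card = 3 ∧ t = 5 ∧ Fintype.card G = 38) ∨
      (7 ≤ A.card ∧ t ≤ 7 ∧ (IsAddCyclic G → ¬ (A.card = 11 ∧ t = 5))) ∨
      (100 < A.card ∧ (t + 1) ^ 2 < 16 * A.card) := by
  rcases Nat.lt_or_ge 100 A.card with h | h
  · exact Or.inr (Or.inr ⟨h, (FM.large G t A hA (by omega)).2 (by omega)⟩)
  rcases Nat.lt_or_ge A.card 7 with h7 | h7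
  · left
    rcases Nat.lt_or_ge A.card 4 with h4 | h4
    · exact FM.smallSize G t A hA ht hm (by omega) (Or.inl (by omega))
    · exact FM.smallSize G t A hA ht hm (by omega) (Or.inr (FM.main G t A hA h4 h))
  · rcases FM.main G t A hA (by omega) h with h1 | ⟨h1, -⟩
    · refine Or.inr (Or.inl ⟨h7, h1, fun hc => ?_⟩)
      rintro ⟨h11, rfl⟩
      exact FM.eleven G hc A hA h11
    · omega

end Pool.Agent.Results.MP_f31b39_co.LargeIndependence
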