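import Pool.Agent.Lib.MP_f31b39_co.T8.Main

/-!
# MP_f31b39_co: tight `t`-independent sets in cyclic groups, `t = 7` modulo `8`

If `t = 7` modulo `8` and `m = 3`, `5` or `7` modulo `8`, then no cyclic group `ℤ_n` contains a
tight `t`-independent set of size `m`.
-/

namespace Pool.Agent.Results.MP_f31b39_co.SevenModEight

open TightIndep

theorem result (n t : ℕ) [NeZero n] (A : Finset (ZMod n)) (ht : t % 8 = 7)
    (hm : A.card % 8 = 3 ∨ A.card % 8 = 5 ∨ A.card % 8 = 7) : ¬ Tight t A :=
  TightIndep.T8.main t A ht hm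

end Pool.Agent.Results.MP_f31b39_co.SevenModEight
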