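import Pool.Agent.Lib.MP_f31b39_co.NO.All
import Pool.Agent.Lib.MP_f31b39_co.SX.All
import Pool.Agent.Lib.MP_f31b39_co.FV.All
import Pool.Agent.Lib.MP_f31b39_co.FX.All

/-!
# MP_f31b39_co: tight `t`-independent sets in cyclic groups, `t = 6, 7, 10, 11, 14, 15, 18, 19, 22, 23`

For each of these `t` (the integer part of `t / 2` is odd and at most eleven) the number of the elements of a
tight `t`-independent set of a cyclic group is bounded; for `t = 6` and `t = 7` it is at most two.
-/

namespace Pool.Agent.Results.MP_f31b39_co.SmallIndependence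

open TightIndep

theorem result : ∃ M : ℕ → ℕ, (M 6 = 2 ∧ M 7 = 2 ∧ M 10 = 400 ^ 60 ∧ M 11 = 400 ^ 60) ∧
    ∀ t ∈ ({6, 7, 10, 11, 14, 15, 18, 19, 22, 23} : Finset ℕ),
      ∀ (n : ℕ) [NeZero n] (A : Finset (ZMod n)), Tight t A → A.card ≤ M t := by
  obtain ⟨M, hM⟩ := TightIndep.FX.odd_radius
  refine ⟨fun t => if t ≤ 7 then 2 else if t ≤ 11 then 400 ^ 60 else M, ?_, ?_⟩
  · simp
  · intro t ht n _ A hA
    beta_reduce
    simp only [Finset.mem_insert, Finset.mem_singleton] at ht
    rcases ht with h | h | h | h | h
    · subst h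
      rw [if_pos (by norm_num)]
      exact TightIndep.SX.six A hA
    · subst h
      rw [if_pos (by norm_num)]
      exact TightIndep.NO.seven A hA
    · subst h
      rw [if_neg (by norm_num), if_pos (by norm_num)]
      exact (TightIndep.FV.ten A hA).le
    · subst h
      rw [if_neg (by norm_num), if_pos (by norm_num)]
      exact (TightIndep.FV.eleven A hA).le
    · rw [if_neg (by omega), if_neg (by omega)]
      exact hM t h n A hA

end Pool.Agent.Results.MP_f31b39_co.SmallIndependence
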